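import Pool.Agent.L0h7.MS.Stm3

/-! # Project MS, module SM6: from finitely presented groups with finitely many conjugacy classes to
simple ones -/

set_option autoImplicit false

open Function

noncomputable section

namespace Pool.Agent.L0h34.MS.SM6

open Pool.Agent.L0h7.MS

theorem fg_of_fp (G : Type) [Group G] (h : Group.IsFinitelyPresented G) : Group.FG G := by
  obtain ⟨n, φ, hφ, -⟩ := h.out
  exact Group.fg_of_surjective hφ

/-- the quotient by a maximal normal subgroup of infinite index -/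
theorem step1 (tTYP : S_TYP) (tFN6 : S_FN6) (G : Type) [Group G]
    (hfp : Group.IsFinitelyPresented G) (hinf : Infinite G) (h6 : Type6 G) :
    ∃ (Q : Type) (_ : Group Q), Group.IsFinitelyPresented Q ∧ Infinite Q ∧ Type6 Q ∧
      ∀ K : Subgroup Q, K.Normal → K ≠ ⊥ → K.FiniteIndex := by
  obtain ⟨hfin, hng⟩ := tFN6 G h6
  have hS : ({N : Subgroup G | N.Normal ∧ Infinite (G ⧸ N)}).Finite :=
    hfin.subset (fun N hN => hN.1)
  have hne : ({N : Subgroup G | N.Normal ∧ Infinite (G ⧸ N)}).Nonempty := by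
    refine ⟨⊥, inferInstance, ?_⟩
    rw [← Subgroup.index_eq_zero_iff_infinite, Subgroup.index_bot]
    exact Nat.card_eq_zero_of_infinite
  obtain ⟨N, ⟨hNn, hNi⟩, hmax⟩ := hS.exists_maximal hne
  have : N.Normal := hNn
  have : Infinite (G ⧸ N) := hNi
  have := hfp
  have := fg_of_fp G hfp
  refine ⟨G ⧸ N, inferInstance, Group.IsFinitelyPresented.quotient N (hng N hNn), hNi, ?_, ?_⟩
  · exact tTYP.2.2.2.2 G (G ⧸ N) (QuotientGroup.mk' N) (fg_of_fp G hfp)
      (QuotientGroup.mk'_surjective N) hNi h6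
  · intro K hK hKb
    by_contra hcon
    have hidx : (K.comap (QuotientGroup.mk' N)).index = K.index :=
      Subgroup.index_comap_of_surjective K (QuotientGroup.mk'_surjective N)
    have h0 : K.index = 0 := by
      by_contra h1
      exact hcon ⟨h1⟩
    have hmem : (K.comap (QuotientGroup.mk' N)) ∈
        {N : Subgroup G | N.Normal ∧ Infinite (G ⧸ N)} := by
      refine ⟨hK.comap _, ?_⟩
      rw [← Subgroup.index_eq_zero_iff_infinite, hidx, h0]
    have hle : N ≤ K.comap (QuotientGroup.mk' N) := by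
      intro x hx
      rw [Subgroup.mem_comap]
      have : QuotientGroup.mk' N x = 1 := (QuotientGroup.eq_one_iff x).2 hx
      rw [this]
      exact K.one_mem
    have hge := hmax hmem hle
    apply hKb
    rw [eq_bot_iff]
    intro q hq
    obtain ⟨x, rfl⟩ := QuotientGroup.mk'_surjective N q
    have hx : x ∈ N := hge hq
    rw [Subgroup.mem_bot]
    exact (QuotientGroup.eq_one_iff x).2 hx

/-- a simple quotient -/
theorem step2 (tFN6 : S_FN6) (M : Type) [Group M] (hinf : Infinite M) (h6 : Type6 M) :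
    ∃ (K : Subgroup M) (_ : K.Normal), K ≠ ⊤ ∧ K.IsFinitelyNormallyGenerated ∧
      IsSimpleGroup (M ⧸ K) := by
  obtain ⟨hfin, hng⟩ := tFN6 M h6
  have hS : ({N : Subgroup M | N.Normal ∧ N ≠ ⊤}).Finite :=
    hfin.subset (fun N hN => hN.1)
  have hne : ({N : Subgroup M | N.Normal ∧ N ≠ ⊤}).Nonempty :=
    ⟨⊥, inferInstance, bot_ne_top⟩
  obtain ⟨K, ⟨hKn, hKt⟩, hmax⟩ := hS.exists_maximal hne
  have : K.Normal := hKn
  refine ⟨K, hKn, hKt, hng K hKn, ?_⟩
  have hnt : Nontrivial (M ⧸ K) := by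
    rw [QuotientGroup.nontrivial_iff]
    exact hKt
  refine ⟨?_⟩
  intro H hH
  by_cases htop : H.comap (QuotientGroup.mk' K) = ⊤
  · right
    rw [eq_top_iff]
    intro q _
    obtain ⟨x, rfl⟩ := QuotientGroup.mk'_surjective K q
    have : x ∈ H.comap (QuotientGroup.mk' K) := by rw [htop]; trivial
    exact this
  · left
    have hle : K ≤ H.comap (QuotientGroup.mk' K) := by
      intro x hx
      rw [Subgroup.mem_comap]
      have : QuotientGroup.mk' K x = 1 := (QuotientGroup.eq_one_iff x).2 hx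
      rw [this]
      exact H.one_mem
    have hge := hmax (show H.comap (QuotientGroup.mk' K) ∈ {N : Subgroup M | N.Normal ∧ N ≠ ⊤}
      from ⟨hH.comap _, htop⟩) hle
    rw [eq_bot_iff]
    intro q hq
    obtain ⟨x, rfl⟩ := QuotientGroup.mk'_surjective K q
    have hx : x ∈ K := hge hq
    rw [Subgroup.mem_bot]
    exact (QuotientGroup.eq_one_iff x).2 hx

/-- the smallest nontrivial normal subgroup -/
theorem step3 (tFN6 : S_FN6) (Q : Type) [Group Q] (h6 : Type6 Q)
    (hK : ∀ K : Subgroup Q, K.Normal → K ≠ ⊥ → K.FiniteIndex) :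
    ∃ M : Subgroup Q, M.FiniteIndex ∧ ∀ K : Subgroup Q, K.Normal → K ≠ ⊥ → M ≤ K := by
  obtain ⟨hfin, -⟩ := tFN6 Q h6
  have hS : ({N : Subgroup Q | N.Normal ∧ N ≠ ⊥}).Finite :=
    hfin.subset (fun N hN => hN.1)
  have : Finite {N : Subgroup Q | N.Normal ∧ N ≠ ⊥} := hS
  refine ⟨⨅ N : {N : Subgroup Q | N.Normal ∧ N ≠ ⊥}, N.1, ?_, ?_⟩
  · exact Subgroup.finiteIndex_iInf (fun i => hK i.1 i.2.1 i.2.2)
  · intro K h1 h2
    exact iInf_le (fun N : {N : Subgroup Q | N.Normal ∧ N ≠ ⊥} => N.1) ⟨K, h1, h2⟩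

theorem t_SM6 : S_RSG → S_TYP → S_FN6 → S_FI6 → S_SM6 := by
  intro tRSG tTYP tFN6 tFI6 G _ hfp hinf h6
  obtain ⟨Q, _, hQfp, hQi, hQ6, hQK⟩ := step1 tTYP tFN6 G hfp hinf h6
  obtain ⟨M, hMf, hMle⟩ := step3 tFN6 Q hQ6 hQK
  have := hMf
  have := hQi
  have hMfp : Group.IsFinitelyPresented M := tRSG Q hQfp M hMf
  have hM6 : Type6 M := tFI6 Q hQ6 M hMf
  have hMi : Infinite M := by
    by_contra hcon
    rw [not_infinite_iff_finite] at hcon
    have := hcon
    have h1 : Nat.card M * M.index = Nat.card Q := M.card_mul_index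
    rw [Nat.card_eq_zero_of_infinite (α := Q)] at h1
    rcases Nat.mul_eq_zero.1 h1 with h2 | h2
    · exact Nat.card_pos.ne' h2
    · exact hMf.index_ne_zero h2
  obtain ⟨K, hKn, hKt, hKng, hKs⟩ := step2 tFN6 M hMi hM6
  have := hKn
  have := hMfp
  have hKinf : Infinite (M ⧸ K) := by
    by_contra hcon
    rw [not_infinite_iff_finite] at hcon
    have := hcon
    have hKf : K.FiniteIndex := Subgroup.finiteIndex_of_finite_quotient
    have hidx : (K.map M.subtype).index ≠ 0 := by
      rw [Subgroup.index_map_subtype]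
      exact Nat.mul_ne_zero hKf.index_ne_zero hMf.index_ne_zero
    have hL : (K.map M.subtype).FiniteIndex := ⟨hidx⟩
    have hcore : (K.map M.subtype).normalCore ≠ ⊥ := by
      intro h
      have h1 : (K.map M.subtype).normalCore.index ≠ 0 :=
        (Subgroup.finiteIndex_normalCore (H := K.map M.subtype)).index_ne_zero
      rw [h, Subgroup.index_bot] at h1
      exact h1 Nat.card_eq_zero_of_infinite
    have hle := hMle _ (Subgroup.normalCore_normal _) hcore
    have hle2 : M ≤ K.map M.subtype := hle.trans (Subgroup.normalCore_le _)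
    apply hKt
    rw [eq_top_iff]
    intro x _
    obtain ⟨y, hy, hyx⟩ := hle2 x.2
    have : y = x := Subtype.ext hyx
    rw [← this]
    exact hy
  refine ⟨M ⧸ K, inferInstance, Group.IsFinitelyPresented.quotient K hKng, hKinf, hKs, ?_⟩
  exact tTYP.2.2.2.2 M (M ⧸ K) (QuotientGroup.mk' K) (fg_of_fp M hMfp)
    (QuotientGroup.mk'_surjective K) hKinf hM6

end Pool.Agent.L0h34.MS.SM6
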